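import Pool.Agent.Helper44.NW.GLow

/-! # NW: every prediction fails on a set of positive measure, from below -/

set_option autoImplicit false
open MeasureTheory Set Filter Topology
open Pool.Agent.Helper57.Zeta Pool.Agent.Helper57.LH Pool.Agent.Helper57.ED
open Pool.Agent.Helper54.LG (za zb qk SS MM)
open Pool.Agent.Helper93.UG (zc sp)
open Pool.Agent.Helper69.UG (XX NX)
open Pool.Agent.Helper57.TX (QX DP rs)
open Pool.Agent.Helper57.NS (cnt)
open Pool.Agent.Helper57.NW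
open Pool.Agent.Helper44.NW

namespace Pool.Agent.Helper53.NW

/-- the pointwise part -/
theorem low_pt {k T R L e t c c1 C1 C2 : ℝ} {n : ℕ} (hcc : c ≤ c1) (hc1 : c ≤ 1)
    (hC1 : 1 ≤ C1) (hC2 : 1 ≤ C2) (hL : 1 ≤ L)
    (h1 : |Tw k T R L n t - (Mw k R L n - Dw k T R L n t)| ≤ C1 * L ^ (-c1))
    (h2 : |Ow k T R L n t - (Mw k R L n - Aw k R L n)| ≤ C1 * L ^ (-c1)) (h3 : (zc (Wr T R 1 t) : ℝ) ≤ L)
    (h4 : ∀ (t v : ℝ) (W : Set ℝ), |Ow k T R L n t - (Mw k R L n - Aw k R L n)| ≤ v → (zc (Wr T R 1 t) : ℝ) ≤ L →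
      W ⊆ Icc (-R) R → |(cnt T t W - prd k T R L n t W) - (Tw k T R L n t - Mw k R L n)| ≤ v + C2 * L ^ (-1 : ℝ))
    (h5 : e + (2 * C1 + C2) * L ^ (-c) < |Dw k T R L n t|) :
    ∀ W : Set ℝ, W ⊆ Icc (-R) R → e < |cnt T t W - prd k T R L n t W| := by
  intro W hW
  have hL0 : 0 < L := by linarith
  have g4 := h4 t _ W h2 h3 hW
  have p2 : C1 * L ^ (-c1) ≤ C1 * L ^ (-c) := by
    have := Real.rpow_le_rpow_of_exponent_le hL (show -c1 ≤ -c by linarith)
    gcongr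
  have p3 : C2 * L ^ (-1 : ℝ) ≤ C2 * L ^ (-c) := by
    have := Real.rpow_le_rpow_of_exponent_le hL (show -1 ≤ -c by linarith)
    gcongr
  generalize hQ : L ^ (-c) = Q at *
  generalize hD : Dw k T R L n t = D0 at *
  generalize hX : cnt T t W - prd k T R L n t W = X at *
  generalize hY : Tw k T R L n t = Y at *
  generalize hM : Mw k R L n = M at *
  have q2 : |D0| ≤ |Y - M| + C1 * Q := by
    have e1 : D0 = (Y - (M - D0)) - (Y - M) := by ring
    have e2 : |D0| ≤ |Y - (M - D0)| + |Y - M| := by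
      conv_lhs => rw [e1]
      exact abs_sub _ _
    linarith
  have q3 : |Y - M| ≤ |X| + (C1 * Q + C2 * Q) := by
    have := abs_sub_abs_le_abs_sub (Y - M) X
    rw [abs_sub_comm] at g4
    linarith
  linarith

/-- **K**: the measure of the points at which every prediction fails, from below -/
theorem final_low_of {k d : ℝ} (hk : 0 < k) (hk8 : k ≤ 1 / 32) (hd : 0 < d) {n : ℕ}
    (H1 : GoodW k d n) (H5 : PointW k d n) (H6 : DpLow k d n) :
    ∃ C T₀ : ℝ, 1 ≤ C ∧ ∀ T R L e : ℝ, T₀ ≤ T → C ≤ L → L ≤ Real.log T → 1 ≤ R → R ≤ L ^ (1 - d) → 0 < e → e ≤ 1 →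
    ENNReal.ofReal (1 / C * (L / R) ^ (-((1 + 30 * k) * e ^ 2)) * T) ≤
      volume {t : ℝ | T ≤ t ∧ t ≤ 2 * T ∧ ∀ W : Set ℝ, W ⊆ Icc (-R) R → e < |cnt T t W - prd k T R L n t W|} := by
  obtain ⟨c1, C1, T1, hc1, hC1, H1⟩ := H1
  obtain ⟨C5, hC5, H5⟩ := H5
  obtain ⟨C6, T6, hC6, H6⟩ := H6
  obtain ⟨c, hc, hcc1, hcc5⟩ : ∃ c : ℝ, 0 < c ∧ c ≤ c1 ∧ c ≤ 1 :=
    ⟨min c1 1, by positivity, min_le_left _ _, min_le_right _ _⟩
  set K := 2 * C1 + C5 with hK
  have hK1 : 1 ≤ K := by linarith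
  set κ := Real.exp (-(9 * K / c)) / (2 * C6) with hκ
  have hκ0 : 0 < κ := by positivity
  have e1 : 0 < K ^ (1 / c) := by positivity
  have e2 : 0 < (7 * C1 / κ) ^ 2 := by positivity
  have e4 : 0 < 1 / κ := by positivity
  set CC := (C1 + C5 + C6) + (K ^ (1 / c) + ((7 * C1 / κ) ^ 2 + 1 / κ)) with hCC
  refine ⟨CC, max T1 (max T6 3), by linarith, ?_⟩
  intro T R L e hT hCL hLT hR hRL he he1
  simp only [max_le_iff] at hT
  obtain ⟨hT1, hT6, hT3⟩ := hT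
  obtain ⟨hL1', hL5', hL6', hLK, hLS, hLκ⟩ :
      C1 ≤ L ∧ C5 ≤ L ∧ C6 ≤ L ∧ K ^ (1 / c) ≤ L ∧ (7 * C1 / κ) ^ 2 ≤ L ∧ 1 / κ ≤ L := by
    refine ⟨?_, ?_, ?_, ?_, ?_, ?_⟩ <;> linarith
  have hL1 : 1 ≤ L := hC1.trans hL1'
  have hL0 : 0 < L := by linarith
  have hT0 : 0 < T := by linarith
  have hlT : 1 ≤ Real.log T := hL1.trans hLT
  have hs : 0 < sp T := by
    unfold sp
    have := Real.pi_pos
    positivity
  have hR0 : 0 < R := by linarith
  -- the ratio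
  have hRL' : R ≤ L := by
    refine hRL.trans ?_
    calc L ^ (1 - d) ≤ L ^ (1:ℝ) := Real.rpow_le_rpow_of_exponent_le hL1 (by linarith)
      _ = L := Real.rpow_one L
  have hx1 : 1 ≤ L / R := by rwa [one_le_div hR0]
  have hxL : L / R ≤ L := div_le_self hL0.le hR
  have hx0 : 0 < L / R := by positivity
  have hLh1 : 1 ≤ L ^ (1 / 2 : ℝ) := Real.one_le_rpow hL1 (by norm_num)
  -- the sets
  obtain ⟨Es, hEv, G1⟩ := H1 T R L hT1 hL1' hLT hR hRL
  set δ := K * L ^ (-c) with hδ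
  have hδ1 : δ ≤ 1 := by
    have h1 : K ≤ L ^ c := by
      have := Real.rpow_le_rpow (by positivity) hLK hc.le
      rwa [← Real.rpow_mul (by linarith), one_div, inv_mul_cancel₀ hc.ne', Real.rpow_one] at this
    calc δ ≤ L ^ c * L ^ (-c) := by rw [hδ]; gcongr
      _ = 1 := by rw [← Real.rpow_add hL0]; simp
  have hδ0 : 0 < δ := by positivity
  set E0 : Set ℝ := {t : ℝ | T ≤ t ∧ t ≤ 2 * T ∧ e + δ < |Dw k T R L n t|} with hE0
  have hE0v := H6 T R L (e + δ) hT6 hL6' hLT hR hRL (by positivity) (by linarith)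
  rw [← hE0] at hE0v
  set P := (L / R) ^ (-((1 + 30 * k) * e ^ 2)) with hP
  have hP0 : 0 < P := by positivity
  have hPL : L ^ (-(23 / 8) : ℝ) ≤ P := P_ge hk hk8 he he1 hx1 hxL
  have hpl := pow_low (A := 1 + 30 * k) (e := e) (δ := δ) (K := K) (c := c) (L := L) (x := L / R) (by positivity) (by linarith) he1
    (by linarith) hc hx1 hxL hδ hδ1
  rw [← hP] at hpl
  have h2v : 2 * (κ * P * T) ≤ 1 / C6 * (L / R) ^ (-((1 + 30 * k) * (e + δ) ^ 2)) * T := by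
    have e1 : 2 * (κ * P * T) = 1 / C6 * (Real.exp (-(9 * K / c)) * P) * T := by
      rw [hκ]
      field_simp
    rw [e1]
    gcongr
  have hEv2 : volume Es ≤ ENNReal.ofReal (κ * P * T) := by
    refine hEv.trans (ENNReal.ofReal_le_ofReal ?_)
    have h := exc_le (J := 0) (S := C1) (by linarith) hκ0 hL1 hT0.le (by push_cast; linarith) hLS hPL
    push_cast at h
    linarith
  have hvol : ENNReal.ofReal (κ * P * T) ≤ volume (E0 \ Es) := good_part (by positivity) h2v hE0v hEv2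
  refine le_trans (ENNReal.ofReal_le_ofReal ?_) (hvol.trans (measure_mono ?_))
  · have h1 : 1 / CC ≤ κ := by
      calc _ ≤ 1 / (1 / κ) := one_div_le_one_div_of_le e4 (by linarith)
        _ = κ := by rw [one_div_one_div]
    gcongr
  · rintro t ⟨ht, htE⟩
    obtain ⟨ht1, ht2, ht3⟩ := ht
    obtain ⟨g1, g2, g3⟩ := G1 t ⟨by linarith, by linarith⟩ htE t (by simp [hs.le])
    exact ⟨ht1, ht2, low_pt hcc1 hcc5 hC1 hC5 hL1 g1 g2 g3
      (fun t v W h1 h2 h3 => H5 T R L t v W (by linarith) hL5' hR hRL h1 h2 h3) ht3⟩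

end Pool.Agent.Helper53.NW
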